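import Pool.Agent.H84.SM.Set
import Pool.Agent.H92.SR.Avg

/-!
MP_3b0ce5_lc (shortest graphs, perturbed points): the mean of the running time.
-/

set_option autoImplicit false

namespace Pool.Agent.H84.SM

open Finset

open Pool.Agent.H92.SR hiding nb

open Pool.Agent.H92.SR.Tr

open Pool.Agent.H84.TS (nb nb_ne sum_le mix pt pt_inj sf_sq)

variable {n : ℕ}

/-- the square classes of the radicands -/
noncomputable def cls (Y : Fin n → Fin n → ℕ) (x : Fin n → ℕ) (G : List (Fin n × Fin n)) : Finset ℕ :=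
  insert 1 (insert (sf 0) ((obl Y G).biUnion fun o => (nb o G).toFinset.image fun t => sf (dd Y x o t)))

theorem cls_card {D : ℕ} (Y : Fin n → Fin n → ℕ) (x : Fin n → ℕ) {G : List (Fin n × Fin n)} (hG : Deg D G) :
    (cls Y x G).card ≤ D * (obl Y G).card + 2 := by
  unfold cls
  have h1 : ((obl Y G).biUnion fun o => (nb o G).toFinset.image fun t => sf (dd Y x o t)).card ≤
      D * (obl Y G).card := by
    refine Finset.card_biUnion_le.trans ?_
    calc ∑ o ∈ obl Y G, ((nb o G).toFinset.image fun t => sf (dd Y x o t)).card ≤ ∑ _o ∈ obl Y G, D :=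
          Finset.sum_le_sum fun o _ => Finset.card_image_le.trans ((List.toFinset_card_le _).trans (hG.2 o))
      _ = D * (obl Y G).card := by rw [Finset.sum_const, smul_eq_mul, mul_comm]
  have h2 := Finset.card_insert_le 1 (insert (sf 0)
    ((obl Y G).biUnion fun o => (nb o G).toFinset.image fun t => sf (dd Y x o t)))
  have h3 := Finset.card_insert_le (sf 0)
    ((obl Y G).biUnion fun o => (nb o G).toFinset.image fun t => sf (dd Y x o t))
  omega

theorem cls_mem (Y : Fin n → Fin n → ℕ) (x : Fin n → ℕ) (G : List (Fin n × Fin n)) :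
    ∀ a ∈ lens Y x G, sf a ∈ cls Y x G := by
  intro a ha
  unfold lens at ha
  rw [List.mem_map] at ha
  obtain ⟨e, he, rfl⟩ := ha
  unfold cls
  rw [mem_insert, mem_insert, mem_biUnion]
  by_cases hYe : Y e.1 e.2 = 0
  · unfold dd
    rw [hYe, add_zero]
    rcases Nat.eq_zero_or_pos ((x e.1 : ℤ) - x e.2).natAbs with h | h
    · right
      left
      rw [h]
      rfl
    · left
      obtain ⟨r, hr⟩ := Nat.exists_eq_succ_of_ne_zero h.ne'
      rw [hr]
      exact sf_sq r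
  · right
    right
    have hm : e.2 ∈ nb e.1 G := mem_nb.2 ⟨e, he, Or.inl ⟨rfl, rfl⟩⟩
    refine ⟨e.1, mem_filter.2 ⟨mem_univ _, e.2, hm, hYe⟩, ?_⟩
    rw [mem_image]
    exact ⟨e.2, List.mem_toFinset.2 hm, rfl⟩

theorem cls_sqf (Y : Fin n → Fin n → ℕ) (x : Fin n → ℕ) (G : List (Fin n × Fin n)) :
    ∀ d ∈ cls Y x G, Squarefree d := by
  intro d hd
  unfold cls at hd
  rw [mem_insert, mem_insert, mem_biUnion] at hd
  rcases hd with rfl | rfl | ⟨o, _, hd⟩
  · exact squarefree_one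
  · exact (sf_spec 0).2
  · rw [mem_image] at hd
    obtain ⟨t, _, rfl⟩ := hd
    exact (sf_spec _).2

theorem dd_lt {M s : ℕ} {X : Fin n → ℕ} {Y : Fin n → Fin n → ℕ} (hXs : ∀ i, Nat.size (X i + M) ≤ s)
    (hYs : ∀ i j, Nat.size (Y i j) ≤ s) {x : Fin n → ℕ} (hx : x ∈ box X M) (i j : Fin n) :
    dd Y x i j < 2 ^ (2 * s + 1) := by
  rw [mem_box] at hx
  have h1 : ∀ i, x i < 2 ^ s := fun i =>
    (hx i).2.trans ((Nat.lt_size_self _).trans_le (Nat.pow_le_pow_right (by norm_num) (hXs i)))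
  have h2 : Y i j < 2 ^ s := (Nat.lt_size_self _).trans_le (Nat.pow_le_pow_right (by norm_num) (hYs i j))
  have h3 := h1 i
  have h4 := h1 j
  unfold dd
  have e1 : ((x i : ℤ) - x j).natAbs ≤ 2 ^ s := by omega
  have e2 := Nat.pow_le_pow_left e1 2
  have e3 : (2 ^ s) ^ 2 = 2 ^ (2 * s) := by rw [← pow_mul, mul_comm]
  have e4 : 2 ^ s ≤ 2 ^ (2 * s) := Nat.pow_le_pow_right (by norm_num) (by omega)
  have e5 : 2 ^ (2 * s + 1) = 2 ^ (2 * s) * 2 := pow_succ _ _
  rw [e3] at e2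
  omega

theorem bsz_le {D M s : ℕ} {X : Fin n → ℕ} {Y : Fin n → Fin n → ℕ} (hXs : ∀ i, Nat.size (X i + M) ≤ s)
    (hYs : ∀ i j, Nat.size (Y i j) ≤ s) {x : Fin n → ℕ} (hx : x ∈ box X M) {G : List (Fin n × Fin n)}
    (hG : Deg D G) {k : ℕ} (hk : Nat.size k ≤ s) : bsz (lens Y x G) k ≤ n * D * (2 * s + 2) + s := by
  have h1 : ((lens Y x G).map Nat.size).sum ≤ G.length * (2 * s + 1) := by
    have h2 := List.sum_le_card_nsmul ((lens Y x G).map Nat.size) (2 * s + 1) (by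
      intro a ha
      rw [List.mem_map] at ha
      obtain ⟨b, hb, rfl⟩ := ha
      unfold lens at hb
      rw [List.mem_map] at hb
      obtain ⟨e, -, rfl⟩ := hb
      exact Nat.size_le.2 (dd_lt hXs hYs hx _ _))
    rw [smul_eq_mul, List.length_map] at h2
    refine h2.trans (le_of_eq ?_)
    unfold lens
    rw [List.length_map]
  have h2 : (lens Y x G).length = G.length := by
    unfold lens
    rw [List.length_map]
  have h3 := length_le hG
  unfold bsz
  rw [h2]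
  have h4 := Nat.mul_le_mul_right (2 * s + 2) h3
  have h5 : G.length * (2 * s + 2) = G.length + G.length * (2 * s + 1) := by ring
  omega

open Classical in
theorem mainS : ∃ (c : Prog) (T : List ℕ → ℕ → ℕ),
    (∀ (L : List ℕ) (k : ℕ),
      Eval c (encI L k) (bit (decide ((L.map fun a : ℕ => √(a : ℝ)).sum ≤ k))) (T L k)) ∧
    ∀ D : ℕ, ∃ (C : ℕ) (q : Polynomial ℕ), ∀ n M s : ℕ, (C * (n + 1) ^ (D + 1)) ^ 3 ≤ M →
      ∀ (X : Fin n → ℕ) (Y : Fin n → Fin n → ℕ), (∀ i j, Y i j = Y j i) →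
      (∀ i, Nat.size (X i + M) ≤ s) → (∀ i j, Nat.size (Y i j) ≤ s) →
      ∀ (F : Set (List (Fin n × Fin n))) (g : (Fin n → ℕ) → List (Fin n × Fin n)) (k : (Fin n → ℕ) → ℕ),
        (∀ x ∈ box X M, Shortest F Y x (g x) ∧ Deg D (g x) ∧ Nat.size (k x) ≤ s) →
        ∑ x ∈ box X M, T (lens Y x (g x)) (k x) ≤ M ^ n * q.eval (n + s) := by
  obtain ⟨c, T, q, Λ0, hΛ0, hE, hT, hT2⟩ := Pool.Agent.H84.OB.timD
  refine ⟨c, T, fun L k => ?_, fun D => ?_⟩
  · have e : decide ((L.map fun a : ℕ => √(a : ℝ)).sum ≤ k) = decide (EE L k ≤ 0) := by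
      apply decide_eq_decide.2
      unfold EE
      rw [sub_nonpos]
    rw [e]
    exact hE L k
  set Λ := Λ0 ^ ((D + 1) ^ 2) with hΛ
  have hΛ1 : 1 ≤ Λ := Nat.one_le_pow _ _ hΛ0
  refine ⟨2 * Λ * (20 * (D + 1)),
    q.comp (Polynomial.C (4 * D + 8) * (Polynomial.X + 1) ^ 2) * Polynomial.C (Λ0 ^ 2 * (1 + 3 * Λ)),
    fun n M s hM X Y hY hXs hYs F g k hg => ?_⟩
  set h := 2 * Λ * (20 * (D + 1)) * (n + 1) ^ (D + 1) with hh
  set L := 2 ^ (s + 1) with hL
  have hLb : ∀ z ∈ box X M, ∀ i j, √(dd Y z i j : ℝ) ≤ (L : ℕ) := by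
    intro z hz i j
    rw [Real.sqrt_le_left (Nat.cast_nonneg _)]
    have h2 := dd_lt hXs hYs hz i j
    have h3 : dd Y z i j ≤ L ^ 2 := by
      refine h2.le.trans ?_
      rw [hL, ← pow_mul]
      exact Nat.pow_le_pow_right (by norm_num) (by omega)
    exact_mod_cast h3
  set b := n + D + s + 5 with hb
  have hb2 : 8 * ((n + 1) * (D + 1) * (L + 1)) ≤ 2 ^ b := by
    have a1 : n + 1 ≤ 2 ^ n := Nat.lt_two_pow_self
    have a2 : D + 1 ≤ 2 ^ D := Nat.lt_two_pow_self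
    have a3 : L + 1 ≤ 2 ^ (s + 2) := by
      rw [hL, pow_succ 2 (s + 1)]
      have := Nat.one_le_two_pow (n := s + 1)
      omega
    calc 8 * ((n + 1) * (D + 1) * (L + 1)) ≤ 8 * (2 ^ n * 2 ^ D * 2 ^ (s + 2)) :=
          Nat.mul_le_mul_left _ (Nat.mul_le_mul (Nat.mul_le_mul a1 a2) a3)
      _ = 2 ^ b := by
          rw [hb, show n + D + s + 5 = n + D + (s + 2) + 3 by ring, pow_add, pow_add, pow_add]
          ring
  set P := (4 * D + 8) * (n + s + 1) ^ 2 with hP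
  have hsz : ∀ x ∈ box X M, bsz (lens Y x (g x)) (k x) + b ≤ P := by
    intro x hx
    obtain ⟨-, hG, hk⟩ := hg x hx
    have h3 := bsz_le hXs hYs hx hG hk
    have a1 : n * (s + 1) ≤ (n + s + 1) ^ 2 := by nlinarith
    have a2 : n + s + 1 ≤ (n + s + 1) ^ 2 := by nlinarith
    have a3 : 1 ≤ (n + s + 1) ^ 2 := by nlinarith
    have a4 : n * D * (2 * s + 2) = 2 * D * (n * (s + 1)) := by ring
    have a5 : 2 * D * (n * (s + 1)) ≤ 2 * D * (n + s + 1) ^ 2 := Nat.mul_le_mul_left _ a1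
    have a6 : (D + 5) * 1 ≤ (D + 5) * (n + s + 1) ^ 2 := Nat.mul_le_mul_left _ a3
    have a7 : 2 * (n + s + 1) ≤ 2 * (n + s + 1) ^ 2 := Nat.mul_le_mul_left _ a2
    have a8 : P = 2 * D * (n + s + 1) ^ 2 + (D + 5) * (n + s + 1) ^ 2 + 2 * (n + s + 1) ^ 2 +
        (D + 1) * (n + s + 1) ^ 2 := by rw [hP]; ring
    omega
  have hev : ∀ x ∈ box X M, q.eval (bsz (lens Y x (g x)) (k x) + b) ≤ q.eval P :=
    fun x hx => poly_mono q (hsz x hx)
  have hcl : ∀ x ∈ box X M, T (lens Y x (g x)) (k x) ≤ q.eval P * Λ0 ^ (D * (obl Y (g x)).card + 2) := by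
    intro x hx
    obtain ⟨-, hG, hk⟩ := hg x hx
    have h2 := hT2 (lens Y x (g x)) (k x) b (cls Y x (g x)) (cls_mem _ _ _) (mem_insert_self _ _) (cls_sqf _ _ _) (by
      have a1 := len_leL (hLb x hx) (g x)
      have a2 : ((g x).length : ℝ) ≤ n * D := by exact_mod_cast length_le hG
      have a3 : (0 : ℝ) ≤ (L : ℕ) := Nat.cast_nonneg _
      have a4 : len Y x (g x) ≤ n * D * (L : ℕ) := a1.trans (mul_le_mul_of_nonneg_right a2 a3)
      have a5 : (8 : ℝ) * ((n + 1) * (D + 1) * ((L : ℕ) + 1)) ≤ 2 ^ b := by exact_mod_cast hb2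
      have a6 : (k x : ℝ) ≤ (L : ℕ) := by
        have : k x ≤ L := (Nat.lt_size_self (k x)).le.trans (Nat.pow_le_pow_right (by norm_num) (by omega))
        exact_mod_cast this
      have a7 : ((lens Y x (g x)).map fun a : ℕ => √(a : ℝ)).sum = len Y x (g x) := rfl
      rw [a7]
      have b1 : (0 : ℝ) ≤ n := Nat.cast_nonneg _
      have b2 : (0 : ℝ) ≤ D := Nat.cast_nonneg _
      have b3 : (0 : ℝ) ≤ n * D := by positivity
      have b4 : (0 : ℝ) ≤ n * (L : ℕ) := by positivity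
      have b5 : (0 : ℝ) ≤ D * (L : ℕ) := by positivity
      have b6 : (0 : ℝ) ≤ n * D * (L : ℕ) := by positivity
      nlinarith)
    refine h2.trans (Nat.mul_le_mul (hev x hx) (Nat.pow_le_pow_right hΛ0 (cls_card Y x hG)))
  obtain ⟨bad, hbadd⟩ : ∃ bad : ℕ → (Fin n → ℕ) → Prop, ∀ m x, bad m x ↔
      (|len Y x (g x) - (k x : ℕ)| * 2 ^ (1 + b * 4 ^ (D * m + 1)) < 1 ∧ m * (D + 1) ≤ (obl Y (g x)).card) :=
    ⟨_, fun _ _ => Iff.rfl⟩
  have key := avg (box X M) (fun x => T (lens Y x (g x)) (k x)) bad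
    (Q := q.eval P * Λ0 ^ 2) (Λ := Λ) (R := Λ ^ n) (M := n + 1) (X := M ^ n) ?_ ?_ ?_ ?_ ?_
  · refine key.trans (le_of_eq ?_)
    rw [Polynomial.eval_mul, Polynomial.eval_comp, Polynomial.eval_C, Polynomial.eval_mul, Polynomial.eval_C,
      Polynomial.eval_pow, Polynomial.eval_add, Polynomial.eval_X, Polynomial.eval_one, hP]
    ring
  · rw [card_box]
  · intro x hx m _ hbad
    rw [hbadd] at hbad
    by_cases hob : m * (D + 1) ≤ (obl Y (g x)).card
    · have hsep : 1 ≤ |EE (lens Y x (g x)) (k x)| * 2 ^ (1 + b * 4 ^ (D * m + 1)) := by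
        by_contra hcon
        exact hbad ⟨not_le.1 hcon, hob⟩
      refine (hT _ _ b (D * m + 1) hsep).trans ?_
      calc q.eval (bsz (lens Y x (g x)) (k x) + b) * Λ0 ^ (D * m + 1) ≤
            q.eval P * Λ0 ^ (2 + (D + 1) ^ 2 * m) := by
            refine Nat.mul_le_mul (hev x hx) (Nat.pow_le_pow_right hΛ0 ?_)
            nlinarith [Nat.zero_le (D * m), Nat.zero_le (D * D * m)]
        _ = q.eval P * Λ0 ^ 2 * Λ ^ m := by rw [pow_add, hΛ, ← pow_mul]; ring
    · rw [not_le] at hob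
      refine (hcl x hx).trans ?_
      calc q.eval P * Λ0 ^ (D * (obl Y (g x)).card + 2) ≤ q.eval P * Λ0 ^ (2 + (D + 1) ^ 2 * m) := by
            refine Nat.mul_le_mul_left _ (Nat.pow_le_pow_right hΛ0 ?_)
            have a1 : D * (obl Y (g x)).card ≤ D * (m * (D + 1)) := Nat.mul_le_mul_left _ hob.le
            have a2 : D * (m * (D + 1)) ≤ (D + 1) ^ 2 * m := by nlinarith [Nat.zero_le (D * m), Nat.zero_le m]
            omega
        _ = q.eval P * Λ0 ^ 2 * Λ ^ m := by rw [pow_add, hΛ, ← pow_mul]; ring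
  · intro x hx
    refine (hcl x hx).trans ?_
    calc q.eval P * Λ0 ^ (D * (obl Y (g x)).card + 2) ≤ q.eval P * Λ0 ^ (2 + (D + 1) ^ 2 * n) := by
          refine Nat.mul_le_mul_left _ (Nat.pow_le_pow_right hΛ0 ?_)
          have a0 := Finset.card_le_univ (obl Y (g x))
          rw [Fintype.card_fin] at a0
          have a1 : D * (obl Y (g x)).card ≤ D * n := Nat.mul_le_mul_left _ a0
          have a2 : D * n ≤ (D + 1) ^ 2 * n := by nlinarith [Nat.zero_le (D * n), Nat.zero_le (D * D * n)]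
          omega
      _ = q.eval P * Λ0 ^ 2 * Λ ^ n := by rw [pow_add, hΛ, ← pow_mul]; ring
  · intro m _
    refine levelS hΛ1 hh hM hY hLb F hb2 _ (Finset.filter_subset _ _) fun x hx => ?_
    obtain ⟨hx1, hx23⟩ := mem_filter.1 hx
    obtain ⟨hx2, hx3⟩ := (hbadd m x).1 hx23
    obtain ⟨hS, hG, -⟩ := hg x hx1
    exact ⟨k x, g x, hS, hG, hx3, hx2⟩
  · calc Λ ^ n ≤ (2 * Λ) ^ n := Nat.pow_le_pow_left (by omega) n
      _ ≤ (2 * Λ) ^ (n + 1) := Nat.pow_le_pow_right (by omega) (by omega)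
      _ ≤ Λ * (2 * Λ) ^ (n + 1) := Nat.le_mul_of_pos_left _ hΛ1

end Pool.Agent.H84.SM
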