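import Pool.Agent.H84.TS.Conv

/-!
MP_3b0ce5_lc (smoothed form): few radicands of the form `(v - z)^2 + C` with `v` in a window lie in one square class.
-/

set_option autoImplicit false

namespace Pool.Agent.H84.SM

open Finset Pool.Agent.H92.SR

open Pool.Agent.H84.TS (hy slope_lt diff_le)

/-- the radicand -/
def radS (v : ℕ) (z : ℤ) (C : ℕ) : ℕ := ((v : ℤ) - z).natAbs ^ 2 + C

theorem sqrt_radS (v : ℕ) (z : ℤ) (C : ℕ) : √(radS v z C : ℝ) = hy √(C : ℝ) ((v : ℝ) - z) := by
  unfold radS hy
  congr 1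
  rw [Real.sq_sqrt (Nat.cast_nonneg C)]
  push_cast
  rw [Nat.cast_natAbs, Int.cast_abs, sq_abs]
  push_cast
  ring

/-- at most `5 M / h` of the `M` numbers of a window have their radicand in the class of `d` -/
theorem countS (M h C X d : ℕ) (z : ℤ) (hC : C ≠ 0) (h1 : 1 ≤ h) (hh : h ^ 3 ≤ M) :
    ((Ico X (X + M)).filter fun v => sf (radS v z C) = d).card * h ≤ 5 * M := by
  classical
  set V := (Ico X (X + M)).filter fun v => sf (radS v z C) = d with hV
  set k := V.card with hk
  have hcR : √(C : ℝ) ≠ 0 := by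
    rw [Real.sqrt_ne_zero']
    exact_mod_cast Nat.pos_of_ne_zero hC
  rcases Nat.eq_zero_or_pos k with h0 | h0
  · rw [h0]; omega
  set e : ℕ → ℕ := fun i => if hi : i < k then V.orderEmbOfFin rfl ⟨i, hi⟩ else 0 with he
  have he1 : ∀ i < k, e i ∈ V := by
    intro i hi
    rw [he]
    beta_reduce
    rw [dif_pos hi]
    exact Finset.orderEmbOfFin_mem V rfl _
  have he2 : ∀ i j, i < j → j < k → e i < e j := by
    intro i j hij hj
    rw [he]
    beta_reduce
    rw [dif_pos (hij.trans hj), dif_pos hj]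
    exact (V.orderEmbOfFin rfl).strictMono (by simpa using hij)
  set w : ℕ → ℤ := fun i => (rt (radS (e i) z C) : ℤ) with hw
  have hd1 : ∃ v, sf (radS v z C) = d := ⟨e 0, (Finset.mem_filter.1 (he1 0 h0)).2⟩
  have hd : 1 ≤ d := by
    obtain ⟨v, hv⟩ := hd1
    rw [← hv]
    exact Nat.one_le_iff_ne_zero.2 (sf_spec _).2.ne_zero
  have hsd : 1 ≤ √(d : ℝ) := by
    rw [Real.one_le_sqrt]
    exact_mod_cast hd
  have hwF : ∀ i < k, (w i : ℝ) * √(d : ℝ) = hy √(C : ℝ) ((e i : ℝ) - z) := by
    intro i hi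
    have h2 := (Finset.mem_filter.1 (he1 i hi)).2
    rw [← sqrt_radS, sqrt_cls (radS (e i) z C), h2, hw]
    push_cast
    rfl
  have hlt : ∀ i < k, X ≤ e i ∧ e i < X + M := fun i hi =>
    Finset.mem_Ico.1 (Finset.mem_filter.1 (he1 i hi)).1
  -- the difference vectors
  set δ : ℕ → ℕ := fun i => e (i + 1) - e i with hδ
  set Δ : ℕ → ℤ := fun i => w (i + 1) - w i with hΔ
  have hδR : ∀ i, i + 1 < k → (δ i : ℝ) = ((e (i + 1) : ℝ) - z) - ((e i : ℝ) - z) := by
    intro i hi
    have := he2 i (i + 1) (by omega) hi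
    rw [hδ]
    beta_reduce
    rw [Nat.cast_sub this.le]
    ring
  have hΔR : ∀ i, i + 1 < k → (Δ i : ℝ) * √(d : ℝ) =
      hy √(C : ℝ) ((e (i + 1) : ℝ) - z) - hy √(C : ℝ) ((e i : ℝ) - z) := by
    intro i hi
    rw [← hwF (i + 1) hi, ← hwF i (by omega), hΔ]
    push_cast
    ring
  have hinj : ∀ i j, i < j → j + 1 < k → (δ i, Δ i) ≠ (δ j, Δ j) := by
    intro i j hij hj heq
    have h2 : δ i = δ j := congrArg Prod.fst heq
    have h3 : Δ i = Δ j := congrArg Prod.snd heq
    have a1 : ((e i : ℝ) - z) < ((e (i + 1) : ℝ) - z) := by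
      have := he2 i (i + 1) (by omega) (by omega)
      have : (e i : ℝ) < e (i + 1) := by exact_mod_cast this
      linarith
    have a2 : ((e (i + 1) : ℝ) - z) ≤ ((e j : ℝ) - z) := by
      have h4 : e (i + 1) ≤ e j := by
        rcases Nat.eq_or_lt_of_le (show i + 1 ≤ j by omega) with h | h
        · rw [h]
        · exact (he2 _ _ h (by omega)).le
      have : (e (i + 1) : ℝ) ≤ e j := by exact_mod_cast h4
      linarith
    have a3 : ((e j : ℝ) - z) < ((e (j + 1) : ℝ) - z) := by
      have := he2 j (j + 1) (by omega) hj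
      have : (e j : ℝ) < e (j + 1) := by exact_mod_cast this
      linarith
    have h4 := slope_lt hcR a1 a2 a3
    rw [← hΔR i (by omega), ← hΔR j hj, ← hδR i (by omega), ← hδR j hj, h2, h3] at h4
    exact lt_irrefl _ h4
  have hΔle : ∀ i, i + 1 < k → |Δ i| ≤ δ i := by
    intro i hi
    have a1 : ((e i : ℝ) - z) < ((e (i + 1) : ℝ) - z) := by
      have := he2 i (i + 1) (by omega) (by omega)
      have : (e i : ℝ) < e (i + 1) := by exact_mod_cast this
      linarith
    have h2 := diff_le hcR a1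
    rw [← hΔR i hi, ← hδR i hi, abs_mul, abs_of_nonneg (Real.sqrt_nonneg _)] at h2
    have h3 : |(Δ i : ℝ)| ≤ δ i := by
      have : |(Δ i : ℝ)| * 1 ≤ |(Δ i : ℝ)| * √(d : ℝ) := mul_le_mul_of_nonneg_left hsd (abs_nonneg _)
      linarith
    exact_mod_cast h3
  have hδ1 : ∀ i, i + 1 < k → 1 ≤ δ i := by
    intro i hi
    have := he2 i (i + 1) (by omega) hi
    rw [hδ]
    beta_reduce
    omega
  -- the long differences
  have hsum : ∀ m, m < k → ∑ i ∈ range m, δ i = e m - e 0 := by
    intro m
    induction m with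
    | zero => simp
    | succ m ih =>
      intro hm
      rw [Finset.sum_range_succ, ih (by omega)]
      have h2 := he2 m (m + 1) (by omega) hm
      have h3 : e 0 ≤ e m := by
        rcases Nat.eq_zero_or_pos m with h | h
        · rw [h]
        · exact (he2 0 m h (by omega)).le
      rw [hδ]
      beta_reduce
      omega
  set A := (range (k - 1)).filter fun i => h < δ i with hA
  set B := (range (k - 1)).filter fun i => ¬ h < δ i with hB
  have hAB : A.card + B.card = k - 1 := by
    rw [hA, hB, Finset.card_filter_add_card_filter_not, Finset.card_range]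
  have hAc : A.card * h ≤ M := by
    have h2 : A.card • h ≤ ∑ i ∈ A, δ i :=
      Finset.card_nsmul_le_sum A δ h fun i hi => (Finset.mem_filter.1 hi).2.le
    have h3 : ∑ i ∈ A, δ i ≤ ∑ i ∈ range (k - 1), δ i :=
      Finset.sum_le_sum_of_subset (Finset.filter_subset _ _)
    rw [hsum (k - 1) (by omega)] at h3
    have h4 := (hlt (k - 1) (by omega)).2
    have h5 := (hlt 0 h0).1
    rw [smul_eq_mul] at h2
    omega
  have hBc : B.card ≤ h * (2 * h + 1) := by
    have h2 : B.card ≤ ((Finset.Icc 1 h) ×ˢ (Finset.Icc (-(h : ℤ)) h)).card := by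
      refine Finset.card_le_card_of_injOn (fun i => (δ i, Δ i)) ?_ ?_
      · intro i hi
        have hi' := Finset.mem_filter.1 hi
        have hik : i + 1 < k := by
          have := Finset.mem_range.1 hi'.1
          omega
        have h3 := hΔle i hik
        have h4 := hδ1 i hik
        have h5 : δ i ≤ h := not_lt.1 hi'.2
        rw [abs_le] at h3
        rw [Finset.mem_coe, Finset.mem_product, Finset.mem_Icc, Finset.mem_Icc]
        refine ⟨⟨h4, h5⟩, ?_, ?_⟩
        · have : (δ i : ℤ) ≤ h := by exact_mod_cast h5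
          show -(h : ℤ) ≤ Δ i
          omega
        · have : (δ i : ℤ) ≤ h := by exact_mod_cast h5
          show Δ i ≤ (h : ℤ)
          omega
      · intro i hi j hj hij
        have hi' := Finset.mem_range.1 (Finset.mem_filter.1 hi).1
        have hj' := Finset.mem_range.1 (Finset.mem_filter.1 hj).1
        rcases lt_trichotomy i j with h3 | h3 | h3
        · exact absurd hij (hinj i j h3 (by omega))
        · exact h3
        · exact absurd hij.symm (hinj j i h3 (by omega))
    rw [Finset.card_product, Nat.card_Icc, Int.card_Icc] at h2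
    have h3 : ((h : ℤ) + 1 - -(h : ℤ)).toNat = 2 * h + 1 := by omega
    rw [h3] at h2
    simpa using h2
  have h2 : B.card * h ≤ 3 * M := by
    calc B.card * h ≤ h * (2 * h + 1) * h := Nat.mul_le_mul_right _ hBc
      _ ≤ 3 * h ^ 3 := by nlinarith [Nat.mul_le_mul h1 (le_refl (h * h))]
      _ ≤ 3 * M := Nat.mul_le_mul_left _ hh
  have h3 : h ≤ M := by
    calc h = h ^ 1 := (pow_one h).symm
      _ ≤ h ^ 3 := Nat.pow_le_pow_right h1 (by norm_num)
      _ ≤ M := hh
  have h4 : k = A.card + B.card + 1 := by omega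
  rw [h4, add_mul, add_mul, one_mul]
  omega

end Pool.Agent.H84.SM
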