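import Pool.Agent.H84.TS.PatI

/-!
MP_3b0ce5_lc (shortest graphs, perturbed points): definitions and elementary facts. The points have
the first coordinates `x i`; `Y i j` is the square of their distance in the other coordinates.
-/

set_option autoImplicit false

namespace Pool.Agent.H84.SM

open Finset

open Pool.Agent.H84.TS (nb nb_ne sum_le mix pt pt_inj)

variable {n : ℕ}

/-- the square of the distance of the points `i` and `j` -/
def dd (Y : Fin n → Fin n → ℕ) (x : Fin n → ℕ) (i j : Fin n) : ℕ := ((x i : ℤ) - x j).natAbs ^ 2 + Y i j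

/-- the squares of the lengths of the edges of a graph, given by the list of its edges -/
def lens (Y : Fin n → Fin n → ℕ) (x : Fin n → ℕ) (G : List (Fin n × Fin n)) : List ℕ :=
  G.map fun e => dd Y x e.1 e.2

/-- the length of a graph -/
noncomputable def len (Y : Fin n → Fin n → ℕ) (x : Fin n → ℕ) (G : List (Fin n × Fin n)) : ℝ :=
  ((lens Y x G).map fun a : ℕ => √(a : ℝ)).sum

/-- graphs (edges may be repeated) without loops, all degrees are at most `D` -/
def Deg (D : ℕ) (G : List (Fin n × Fin n)) : Prop :=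
  (∀ e ∈ G, e.1 ≠ e.2) ∧ ∀ o, (nb o G).length ≤ D

/-- `G` is a shortest member of the family `F` -/
def Shortest (F : Set (List (Fin n × Fin n))) (Y : Fin n → Fin n → ℕ) (x : Fin n → ℕ)
    (G : List (Fin n × Fin n)) : Prop :=
  G ∈ F ∧ ∀ G' ∈ F, len Y x G ≤ len Y x G'

/-- the first coordinates are moved by less than `M` -/
def box (X : Fin n → ℕ) (M : ℕ) : Finset (Fin n → ℕ) := Fintype.piFinset fun i => Ico (X i) (X i + M)

theorem mem_box {X : Fin n → ℕ} {M : ℕ} {x : Fin n → ℕ} : x ∈ box X M ↔ ∀ i, X i ≤ x i ∧ x i < X i + M := by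
  unfold box
  rw [Fintype.mem_piFinset]
  exact forall_congr' fun i => Finset.mem_Ico

theorem card_box (X : Fin n → ℕ) (M : ℕ) : (box X M).card = M ^ n := by
  unfold box
  rw [Fintype.card_piFinset]
  simp

theorem dd_comm {Y : Fin n → Fin n → ℕ} (hY : ∀ i j, Y i j = Y j i) (x : Fin n → ℕ) (i j : Fin n) :
    dd Y x i j = dd Y x j i := by
  unfold dd
  rw [← Int.natAbs_neg, neg_sub, hY]

/-- the part of the length which depends on the vertex `o` -/
noncomputable def loc (Y : Fin n → Fin n → ℕ) (x : Fin n → ℕ) (o : Fin n) (ν : List (Fin n)) : ℝ :=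
  (ν.map fun t => √(dd Y x o t : ℝ)).sum

/-- the edges which do not touch `I` -/
def awayI (I : Finset (Fin n)) (G : List (Fin n × Fin n)) : List (Fin n × Fin n) :=
  G.filter fun e => e.1 ∉ I ∧ e.2 ∉ I

theorem mem_nb {o t : Fin n} {G : List (Fin n × Fin n)} :
    t ∈ nb o G ↔ ∃ e ∈ G, (e.1 = o ∧ e.2 = t) ∨ (e.1 ≠ o ∧ e.2 = o ∧ e.1 = t) := by
  unfold nb
  rw [List.mem_filterMap]
  constructor
  · rintro ⟨e, he, h⟩
    refine ⟨e, he, ?_⟩
    by_cases h1 : e.1 = o
    · rw [if_pos h1] at h
      exact Or.inl ⟨h1, Option.some.inj h⟩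
    · rw [if_neg h1] at h
      by_cases h2 : e.2 = o
      · rw [if_pos h2] at h
        exact Or.inr ⟨h1, h2, Option.some.inj h⟩
      · rw [if_neg h2] at h
        cases h
  · rintro ⟨e, he, ⟨h1, h2⟩ | ⟨h1, h2, h3⟩⟩
    · exact ⟨e, he, by rw [if_pos h1, h2]⟩
    · exact ⟨e, he, by rw [if_neg h1, if_pos h2, h3]⟩

theorem nb_symm {o t : Fin n} {G : List (Fin n × Fin n)}
    (hG : ∀ e ∈ G, e.1 ≠ e.2) (h : t ∈ nb o G) : o ∈ nb t G := by
  rw [mem_nb] at h ⊢
  obtain ⟨e, he, ⟨h1, h2⟩ | ⟨h1, h2, h3⟩⟩ := h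
  · refine ⟨e, he, Or.inr ⟨?_, h2, h1⟩⟩
    intro h3
    exact hG e he (h3.trans h2.symm)
  · exact ⟨e, he, Or.inl ⟨h3, h2⟩⟩

theorem indep {D : ℕ} {G : List (Fin n × Fin n)} (hG : Deg D G) (m : ℕ) (O : Finset (Fin n))
    (hO : m * (D + 1) ≤ O.card) :
    ∃ I ⊆ O, I.card = m ∧ ∀ o ∈ I, ∀ t ∈ nb o G, t ∉ I := by
  classical
  induction m generalizing O with
  | zero => exact ⟨∅, Finset.empty_subset _, Finset.card_empty, fun o ho => absurd ho (Finset.notMem_empty o)⟩
  | succ m ih =>
    have hne : O.Nonempty := by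
      rw [← Finset.card_pos]
      have : 0 < (m + 1) * (D + 1) := by positivity
      omega
    obtain ⟨o, ho⟩ := hne
    obtain ⟨R, hR⟩ : ∃ R : Finset (Fin n), R = insert o (nb o G).toFinset := ⟨_, rfl⟩
    have hRc : R.card ≤ D + 1 := by
      rw [hR]
      refine (Finset.card_insert_le _ _).trans ?_
      have h1 := List.toFinset_card_le (nb o G)
      have h2 := hG.2 o
      omega
    have hO' : m * (D + 1) ≤ (O \ R).card := by
      have h1 := Finset.le_card_sdiff R O
      have h2 : (m + 1) * (D + 1) = m * (D + 1) + (D + 1) := by ring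
      omega
    obtain ⟨I, hI, hIc, hind⟩ := ih (O \ R) hO'
    have hIR : ∀ t ∈ I, t ∉ R := fun t ht => (Finset.mem_sdiff.1 (hI ht)).2
    have hoR : o ∈ R := by
      rw [hR]
      exact Finset.mem_insert_self _ _
    have hoI : o ∉ I := fun h => hIR o h hoR
    have hnbR : ∀ t ∈ nb o G, t ∈ R := by
      intro t ht
      rw [hR]
      exact Finset.mem_insert_of_mem (List.mem_toFinset.2 ht)
    refine ⟨insert o I, ?_, ?_, ?_⟩
    · intro t ht
      rcases Finset.mem_insert.1 ht with h | h
      · rw [h]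
        exact ho
      · exact (Finset.mem_sdiff.1 (hI h)).1
    · rw [Finset.card_insert_of_notMem hoI, hIc]
    · intro o' ho' t ht htI
      rcases Finset.mem_insert.1 ho' with h | h
      · rw [h] at ht
        rcases Finset.mem_insert.1 htI with h2 | h2
        · exact nb_ne hG.1 t ht h2
        · exact hIR t h2 (hnbR t ht)
      · rcases Finset.mem_insert.1 htI with h2 | h2
        · rw [h2] at ht
          exact hIR o' h (hnbR o' (nb_symm hG.1 ht))
        · exact hind o' h t ht h2

theorem loc_cons {Y : Fin n → Fin n → ℕ} (hY : ∀ i j, Y i j = Y j i) (x : Fin n → ℕ) (o : Fin n)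
    (e : Fin n × Fin n) (G : List (Fin n × Fin n)) : loc Y x o (nb o (e :: G)) = loc Y x o (nb o G) +
      (if e.1 = o then √(dd Y x e.1 e.2 : ℝ) else if e.2 = o then √(dd Y x e.1 e.2 : ℝ) else 0) := by
  unfold loc nb
  by_cases h1 : e.1 = o
  · rw [List.filterMap_cons_some (b := e.2) (by simp [h1]), if_pos h1]
    simp only [List.map_cons, List.sum_cons]
    rw [h1]
    ring
  · by_cases h2 : e.2 = o
    · rw [List.filterMap_cons_some (b := e.1) (by simp [h1, h2]), if_neg h1, if_pos h2]
      simp only [List.map_cons, List.sum_cons]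
      rw [h2, dd_comm hY x e.1 o]
      ring
    · rw [List.filterMap_cons_none (by simp [h1, h2]), if_neg h1, if_neg h2, add_zero]

theorem len_splitI {Y : Fin n → Fin n → ℕ} (hY : ∀ i j, Y i j = Y j i) (x : Fin n → ℕ) (I : Finset (Fin n))
    (G : List (Fin n × Fin n)) (hI : ∀ o ∈ I, ∀ t ∈ nb o G, t ∉ I) :
    len Y x G = (∑ o ∈ I, loc Y x o (nb o G)) + len Y x (awayI I G) := by
  unfold awayI
  induction G with
  | nil => simp [len, lens, loc, nb]
  | cons e G ih =>
    have hsub : ∀ o : Fin n, ∀ t ∈ nb o G, t ∈ nb o (e :: G) := by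
      intro o t ht
      rw [mem_nb] at ht ⊢
      obtain ⟨f, hf, h⟩ := ht
      exact ⟨f, List.mem_cons_of_mem _ hf, h⟩
    have ih' := ih fun o ho t ht => hI o ho t (hsub o t ht)
    have hlen : len Y x (e :: G) = √(dd Y x e.1 e.2 : ℝ) + len Y x G := by
      unfold len lens
      simp only [List.map_cons, List.sum_cons]
    rw [hlen, ih', Finset.sum_congr rfl fun o _ => loc_cons hY x o e G, Finset.sum_add_distrib]
    by_cases h1 : e.1 ∈ I
    · have h2 : e.2 ∉ I := hI e.1 h1 e.2 (mem_nb.2 ⟨e, List.mem_cons_self, Or.inl ⟨rfl, rfl⟩⟩)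
      have h3 : ∑ o ∈ I, (if e.1 = o then √(dd Y x e.1 e.2 : ℝ) else
          if e.2 = o then √(dd Y x e.1 e.2 : ℝ) else 0) = √(dd Y x e.1 e.2 : ℝ) := by
        rw [Finset.sum_eq_single_of_mem e.1 h1, if_pos rfl]
        intro o ho hne
        rw [if_neg (fun h => hne h.symm), if_neg (fun h => h2 (by rw [h]; exact ho))]
      rw [h3, List.filter_cons_of_neg (by simp [h1])]
      ring
    · by_cases h2 : e.2 ∈ I
      · have h3 : ∑ o ∈ I, (if e.1 = o then √(dd Y x e.1 e.2 : ℝ) else
            if e.2 = o then √(dd Y x e.1 e.2 : ℝ) else 0) = √(dd Y x e.1 e.2 : ℝ) := by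
          have h4 : e.1 ≠ e.2 := fun h => h1 (by rw [h]; exact h2)
          rw [Finset.sum_eq_single_of_mem e.2 h2, if_neg h4, if_pos rfl]
          intro o ho hne
          rw [if_neg (fun h => h1 (by rw [h]; exact ho)), if_neg (fun h => hne h.symm)]
        rw [h3, List.filter_cons_of_neg (by simp [h2])]
        ring
      · have h3 : ∑ o ∈ I, (if e.1 = o then √(dd Y x e.1 e.2 : ℝ) else
            if e.2 = o then √(dd Y x e.1 e.2 : ℝ) else 0) = 0 := by
          refine Finset.sum_eq_zero fun o ho => ?_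
          rw [if_neg (fun h => h1 (by rw [h]; exact ho)), if_neg (fun h => h2 (by rw [h]; exact ho))]
        rw [h3, List.filter_cons_of_pos (by simp [h1, h2])]
        have h5 : len Y x (e :: G.filter fun e => e.1 ∉ I ∧ e.2 ∉ I) =
            √(dd Y x e.1 e.2 : ℝ) + len Y x (G.filter fun e => e.1 ∉ I ∧ e.2 ∉ I) := by
          unfold len lens
          simp only [List.map_cons, List.sum_cons]
        rw [h5]
        ring

theorem length_le {D : ℕ} {G : List (Fin n × Fin n)} (hG : Deg D G) : G.length ≤ n * D := by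
  classical
  have h1 : ∀ G : List (Fin n × Fin n), G.length ≤ ∑ o : Fin n, (nb o G).length := by
    intro G
    induction G with
    | nil => simp
    | cons e G ih =>
      have h2 : ∀ o : Fin n, (nb o (e :: G)).length = (nb o G).length + (if e.1 = o ∨ e.2 = o then 1 else 0) := by
        intro o
        unfold nb
        by_cases h1 : e.1 = o
        · rw [List.filterMap_cons_some (b := e.2) (by simp [h1])]
          simp [h1]
        · by_cases h2 : e.2 = o
          · rw [List.filterMap_cons_some (b := e.1) (by simp [h1, h2])]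
            simp [h2]
          · rw [List.filterMap_cons_none (by simp [h1, h2])]
            simp [h1, h2]
      rw [List.length_cons, Finset.sum_congr rfl fun o _ => h2 o, Finset.sum_add_distrib]
      have h3 : 1 ≤ ∑ o : Fin n, (if e.1 = o ∨ e.2 = o then 1 else 0) := by
        refine le_trans ?_ (Finset.single_le_sum (f := fun o => if e.1 = o ∨ e.2 = o then 1 else 0)
          (fun o _ => Nat.zero_le _) (Finset.mem_univ e.1))
        simp
      omega
  refine (h1 G).trans ?_
  calc ∑ o : Fin n, (nb o G).length ≤ ∑ _o : Fin n, D := Finset.sum_le_sum fun o _ => hG.2 o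
    _ = n * D := by simp

theorem awayI_mix (Y : Fin n → Fin n → ℕ) (I : Finset (Fin n)) (z x : Fin n → ℕ) (G : List (Fin n × Fin n)) :
    len Y (mix I z x) (awayI I G) = len Y x (awayI I G) := by
  unfold len lens
  congr 2
  refine List.map_congr_left fun e he => ?_
  have h := List.of_mem_filter he
  simp only [Bool.decide_and, Bool.and_eq_true, decide_eq_true_eq] at h
  unfold dd mix
  rw [if_neg h.1, if_neg h.2]

/-- the index set of the local roots and the integer -/
abbrev JJ (I : Finset (Fin n)) (ν : Fin n → List (Fin n)) : Type :=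
  Option ((o : {o // o ∈ I}) × Fin (ν o.1).length)

theorem card_JJ {I : Finset (Fin n)} {ν : Fin n → List (Fin n)} {D : ℕ} (h : ∀ o ∈ I, (ν o).length ≤ D) :
    Fintype.card (JJ I ν) ≤ D * I.card + 1 := by
  rw [Fintype.card_option, Fintype.card_sigma]
  have : ∑ o : {o // o ∈ I}, Fintype.card (Fin (ν o.1).length) ≤ ∑ _o : {o // o ∈ I}, D := by
    refine Finset.sum_le_sum fun o _ => ?_
    rw [Fintype.card_fin]
    exact h o.1 o.2
  rw [Finset.sum_const, smul_eq_mul, Finset.card_univ, Fintype.card_coe, mul_comm] at this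
  omega

theorem loc_sumI (Y : Fin n → Fin n → ℕ) (x : Fin n → ℕ) (I : Finset (Fin n)) (ν : Fin n → List (Fin n)) (k : ℕ) :
    ∑ j : JJ I ν, √((j.elim ((k + 1) ^ 2) fun p => dd Y x p.1.1 (ν p.1.1)[p.2.1] : ℕ) : ℝ) =
      (∑ o ∈ I, loc Y x o (ν o)) + (k + 1) := by
  rw [Fintype.sum_option]
  simp only [Option.elim_none, Option.elim_some]
  push_cast
  rw [Real.sqrt_sq (by positivity), add_comm]
  congr 1
  rw [Fintype.sum_sigma, ← Finset.sum_coe_sort I fun o => loc Y x o (ν o)]
  refine Finset.sum_congr rfl fun o _ => ?_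
  exact Fin.sum_univ_fun_getElem (ν o.1) (fun t => √(dd Y x o.1 t : ℝ))

/-- the vertices with an edge which is not parallel to the first axis -/
def obl (Y : Fin n → Fin n → ℕ) (G : List (Fin n × Fin n)) : Finset (Fin n) :=
  univ.filter fun o => ∃ t ∈ nb o G, Y o t ≠ 0

end Pool.Agent.H84.SM
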