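import Pool.Agent.H84.SM.Gr
import Pool.Agent.H84.SM.Cnt
import Pool.Agent.H84.OB.Tm

/-!
MP_3b0ce5_lc (shortest graphs, perturbed points): the bad positions of a set of vertices for a fixed
pattern of neighbours.
-/

set_option autoImplicit false

namespace Pool.Agent.H84.SM

open Finset

open Pool.Agent.H92.SR hiding nb

open Pool.Agent.H84.TS (nb nb_ne sum_le mix pt pt_inj sf_sq)

variable {n : ℕ}

theorem mix_mem {X : Fin n → ℕ} {M : ℕ} (I : Finset (Fin n)) {z x : Fin n → ℕ} (hz : z ∈ box X M)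
    (hx : x ∈ box X M) : mix I z x ∈ box X M := by
  rw [mem_box] at hz hx ⊢
  intro i
  unfold mix
  split_ifs
  · exact hz i
  · exact hx i

theorem len_leL {Y : Fin n → Fin n → ℕ} {x : Fin n → ℕ} {L : ℕ} (h : ∀ i j, √(dd Y x i j : ℝ) ≤ L)
    (G : List (Fin n × Fin n)) : len Y x G ≤ G.length * L := by
  unfold len lens
  rw [List.map_map]
  exact sum_le _ _ G fun e => h _ _

theorem patS {D M h L : ℕ} (h1 : 1 ≤ h) (hh : h ^ 3 ≤ M) {X : Fin n → ℕ} {Y : Fin n → Fin n → ℕ}
    (hY : ∀ i j, Y i j = Y j i) (hL : ∀ z ∈ box X M, ∀ i j, √(dd Y z i j : ℝ) ≤ L) {x : Fin n → ℕ}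
    (hx : x ∈ box X M) (I : Finset (Fin n)) (F : Set (List (Fin n × Fin n))) (ν : Fin n → List (Fin n)) {b : ℕ}
    (hb : 8 * ((n + 1) * (D + 1) * (L + 1)) ≤ 2 ^ b) (V : Finset (Fin n → ℕ)) (hV : V ⊆ box X M)
    (hν : ∀ o ∈ I, ∃ t ∈ ν o, Y o t ≠ 0)
    (hbad : ∀ z ∈ V, ∃ (k : ℕ) (G : List (Fin n × Fin n)), Shortest F Y (mix I z x) G ∧ Deg D G ∧
      (∀ o ∈ I, nb o G = ν o) ∧ (∀ o ∈ I, ∀ t ∈ nb o G, t ∉ I) ∧
      |len Y (mix I z x) G - k| * 2 ^ (1 + b * 4 ^ (D * I.card + 1)) < 1) :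
    V.card * h ^ I.card ≤ (5 * (D * I.card + 1)) ^ I.card * M ^ n := by
  classical
  rcases V.eq_empty_or_nonempty with hVe | ⟨z0, hz0⟩
  · rw [hVe]; simp
  obtain ⟨k0, G0, hS0, hG0, hν0, hi0, hl0⟩ := hbad z0 hz0
  have hνI : ∀ o ∈ I, ∀ t ∈ ν o, t ∉ I := fun o ho t ht => hi0 o ho t (by rw [hν0 o ho]; exact ht)
  have hνD : ∀ o ∈ I, (ν o).length ≤ D := fun o ho => by rw [← hν0 o ho]; exact hG0.2 o
  have hcard := card_JJ hνD
  have hup : ∀ z ∈ V, mix I z x ∈ box X M := fun z hz => mix_mem I (hV hz) hx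
  have hix : ∀ o ∈ I, ∃ i : Fin (ν o).length, Y o (ν o)[i] ≠ 0 := by
    intro o ho
    obtain ⟨t, ht, hYt⟩ := hν o ho
    obtain ⟨i, hi, rfl⟩ := List.getElem_of_mem ht
    exact ⟨⟨i, hi⟩, hYt⟩
  choose ix hix using hix
  set cl : JJ I ν → ℕ := fun i => i.elim 1 fun p => sf (dd Y (mix I z0 x) p.1.1 (ν p.1.1)[p.2.1]) with hcl
  have key : ∀ z ∈ V, ∀ o (ho : o ∈ I), ∃ i : JJ I ν,
      sf (radS (z o) (x (ν o)[(ix o ho).1]) (Y o (ν o)[(ix o ho).1])) = cl i := by
    intro z hz o ho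
    obtain ⟨k, G, hS, hG, hν, hi, hl⟩ := hbad z hz
    have e1 := len_splitI hY (mix I z x) I G hi
    have e2 := len_splitI hY (mix I z0 x) I G0 hi0
    have e3 := len_splitI hY (mix I z x) I G0 hi0
    have e4 := len_splitI hY (mix I z0 x) I G hi
    rw [Finset.sum_congr rfl fun o ho => by rw [hν o ho], awayI_mix] at e1 e4
    rw [Finset.sum_congr rfl fun o ho => by rw [hν0 o ho], awayI_mix] at e2 e3
    have e5 := hS.2 G0 hS0.1
    have e6 := hS0.2 G hS.1
    rw [e1, e3] at e5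
    rw [e2, e4] at e6
    have hR : len Y x (awayI I G) = len Y x (awayI I G0) := le_antisymm (by linarith) (by linarith)
    set E := 4 ^ (D * I.card + 1) with hE
    have hpow : (2 : ℝ) ^ (1 + b * E) = 2 * (2 ^ b) ^ E := by rw [pow_add, pow_one, pow_mul]
    have hB1 : (1 : ℝ) ≤ 2 ^ b := one_le_pow₀ (by norm_num)
    have hB0 : (0 : ℝ) < 2 * (2 ^ b) ^ E := by positivity
    have hB2 : (1 : ℝ) ≤ 2 * (2 ^ b) ^ E := by
      have := one_le_pow₀ (n := E) hB1
      linarith
    rw [hpow] at hl hl0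
    have hu1 : |len Y (mix I z x) G - k| < 1 := by
      by_contra hcon
      rw [not_lt] at hcon
      have := mul_le_mul hcon hB2 zero_le_one (abs_nonneg _)
      linarith
    have hu2 : |len Y (mix I z0 x) G0 - k0| < 1 := by
      by_contra hcon
      rw [not_lt] at hcon
      have := mul_le_mul hcon hB2 zero_le_one (abs_nonneg _)
      linarith
    have hL0 : (0 : ℝ) ≤ L := Nat.cast_nonneg _
    have hlenb : ∀ z ∈ V, ∀ G, Deg D G → len Y (mix I z x) G ≤ n * D * L := by
      intro z hz G hG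
      have a1 := len_leL (hL _ (hup z hz)) G
      have a2 : (G.length : ℝ) ≤ n * D := by exact_mod_cast length_le hG
      exact a1.trans (mul_le_mul_of_nonneg_right a2 hL0)
    have hkle : (k : ℝ) ≤ n * D * L + 1 := by
      have a1 := hlenb z hz G hG
      have a2 := abs_lt.1 hu1
      linarith
    have hk0le : (k0 : ℝ) ≤ n * D * L + 1 := by
      have a1 := hlenb z0 hz0 G0 hG0
      have a2 := abs_lt.1 hu2
      linarith
    have hlocb : ∀ z ∈ V, ∑ o ∈ I, loc Y (mix I z x) o (ν o) ≤ n * D * L := by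
      intro z hz
      calc ∑ o ∈ I, loc Y (mix I z x) o (ν o) ≤ ∑ _o ∈ I, (D : ℝ) * L := by
            refine Finset.sum_le_sum fun o ho => ?_
            have a1 := sum_le (fun t => √(dd Y (mix I z x) o t : ℝ)) L (ν o)
              fun t => hL _ (hup z hz) o t
            have a2 : ((ν o).length : ℝ) ≤ D := by exact_mod_cast hνD o ho
            exact a1.trans (mul_le_mul_of_nonneg_right a2 hL0)
        _ = I.card * (D * L) := by simp
        _ ≤ n * (D * L) := by
            have a4 : (I.card : ℝ) ≤ n := by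
              have := Finset.card_le_univ I
              rw [Fintype.card_fin] at this
              exact_mod_cast this
            exact mul_le_mul_of_nonneg_right a4 (by positivity)
        _ = n * D * L := by ring
    rw [e1] at hl
    rw [e2, ← hR] at hl0
    set a : JJ I ν → ℕ := fun j => j.elim ((k0 + 1) ^ 2) fun p => dd Y (mix I z x) p.1.1 (ν p.1.1)[p.2.1] with ha
    set a' : JJ I ν → ℕ := fun j => j.elim ((k + 1) ^ 2) fun p => dd Y (mix I z0 x) p.1.1 (ν p.1.1)[p.2.1] with ha'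
    have hs1 : ∑ j, √(a j : ℝ) = (∑ o ∈ I, loc Y (mix I z x) o (ν o)) + (k0 + 1) := loc_sumI _ _ _ _ _
    have hs2 : ∑ j, √(a' j : ℝ) = (∑ o ∈ I, loc Y (mix I z0 x) o (ν o)) + (k + 1) := loc_sumI _ _ _ _ _
    have heq : ∑ j, √(a j : ℝ) = ∑ j, √(a' j : ℝ) := by
      by_contra hne
      have hbR : (8 : ℝ) * ((n + 1) * (D + 1) * (L + 1)) ≤ 2 ^ b := by exact_mod_cast hb
      have hsum : ∑ j, √(a j : ℝ) + ∑ j, √(a' j : ℝ) ≤ 2 ^ b := by
        rw [hs1, hs2]
        have a1 := hlocb z hz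
        have a2 := hlocb z0 hz0
        have a3 : (n : ℝ) * D * L + 1 ≤ (n + 1) * (D + 1) * (L + 1) := by
          have b1 : (0 : ℝ) ≤ n := Nat.cast_nonneg _
          have b2 : (0 : ℝ) ≤ D := Nat.cast_nonneg _
          have b3 : (0 : ℝ) ≤ n * D := by positivity
          have b4 : (0 : ℝ) ≤ n * L := by positivity
          have b5 : (0 : ℝ) ≤ D * L := by positivity
          nlinarith
        linarith
      have h2 := cls_sep hne hB1 hsum
      have h3 : ∑ j, √(a j : ℝ) - ∑ j, √(a' j : ℝ) =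
          ((∑ o ∈ I, loc Y (mix I z x) o (ν o)) + len Y x (awayI I G) - k) -
          ((∑ o ∈ I, loc Y (mix I z0 x) o (ν o)) + len Y x (awayI I G) - k0) := by
        rw [hs1, hs2]
        ring
      rw [h3] at h2
      set u := (∑ o ∈ I, loc Y (mix I z x) o (ν o)) + len Y x (awayI I G) - k with hu
      set u0 := (∑ o ∈ I, loc Y (mix I z0 x) o (ν o)) + len Y x (awayI I G) - k0 with hu0
      have h4 : |u - u0| ≤ |u| + |u0| := abs_sub _ _
      have h5 : |u - u0| * (2 * (2 ^ b) ^ E) < 2 := by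
        have := mul_le_mul_of_nonneg_right h4 hB0.le
        linarith
      have h6 : ((2 : ℝ) ^ b) ^ (2 ^ (2 * Fintype.card (JJ I ν)) - 1) ≤ (2 ^ b) ^ E := by
        refine pow_le_pow_right₀ hB1 ((Nat.sub_le _ _).trans ?_)
        rw [pow_mul, hE]
        exact Nat.pow_le_pow_right (by norm_num) hcard
      have h7 := mul_le_mul_of_nonneg_left h6 (abs_nonneg (u - u0))
      linarith
    have hi0 : a (some ⟨⟨o, ho⟩, ix o ho⟩) = radS (z o) (x (ν o)[(ix o ho).1]) (Y o (ν o)[(ix o ho).1]) := by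
      have hnI : (ν o)[(ix o ho).1] ∉ I := hνI o ho _ (List.getElem_mem _)
      show dd Y (mix I z x) o (ν o)[(ix o ho).1] = _
      unfold dd radS mix
      rw [if_pos ho, if_neg hnI]
    have hpos : 1 ≤ a (some ⟨⟨o, ho⟩, ix o ho⟩) := by
      rw [hi0]
      unfold radS
      have := hix o ho
      have h2 : Y o (ν o)[(ix o ho).1] ≠ 0 := this
      omega
    obtain ⟨i, hi⟩ := Pool.Agent.H84.OB.cls_eq0 heq (some ⟨⟨o, ho⟩, ix o ho⟩) hpos
    rw [hi0] at hi
    refine ⟨i, ?_⟩
    cases i with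
    | none => exact hi.trans (sf_sq k)
    | some p => exact hi
  set A : Fin n → Finset ℕ := fun o => (Ico (X o) (X o + M)).filter fun v => ∃ (ho : o ∈ I) (i : JJ I ν),
    sf (radS v (x (ν o)[(ix o ho).1]) (Y o (ν o)[(ix o ho).1])) = cl i with hA
  have hAc : ∀ o ∈ I, (A o).card * h ≤ 5 * (D * I.card + 1) * M := by
    intro o ho
    obtain ⟨C, hC⟩ : ∃ C, C = Y o (ν o)[(ix o ho).1] := ⟨_, rfl⟩
    obtain ⟨w, hw⟩ : ∃ w, w = x (ν o)[(ix o ho).1] := ⟨_, rfl⟩
    have hc0 : C ≠ 0 := by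
      rw [hC]
      exact hix o ho
    have hsub : A o ⊆ (univ : Finset (JJ I ν)).biUnion fun i => (Ico (X o) (X o + M)).filter fun v =>
        sf (radS v w C) = cl i := by
      intro v hv
      obtain ⟨hv1, _, i, hi⟩ := mem_filter.1 hv
      rw [← hC, ← hw] at hi
      rw [mem_biUnion]
      exact ⟨i, mem_univ _, mem_filter.2 ⟨hv1, hi⟩⟩
    have c4 := (Finset.card_le_card hsub).trans Finset.card_biUnion_le
    have c5 : ∀ i : JJ I ν, ((Ico (X o) (X o + M)).filter fun v => sf (radS v w C) = cl i).card * h ≤ 5 * M :=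
      fun i => countS M h C (X o) (cl i) w hc0 h1 hh
    calc (A o).card * h ≤ (∑ i : JJ I ν, ((Ico (X o) (X o + M)).filter fun v =>
          sf (radS v w C) = cl i).card) * h := Nat.mul_le_mul_right _ c4
      _ = ∑ i : JJ I ν, ((Ico (X o) (X o + M)).filter fun v =>
          sf (radS v w C) = cl i).card * h := Finset.sum_mul _ _ _
      _ ≤ ∑ _i : JJ I ν, 5 * M := Finset.sum_le_sum fun i _ => c5 i
      _ = Fintype.card (JJ I ν) * (5 * M) := by rw [Finset.sum_const, smul_eq_mul, Finset.card_univ]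
      _ ≤ (D * I.card + 1) * (5 * M) := Nat.mul_le_mul_right _ hcard
      _ = 5 * (D * I.card + 1) * M := by ring
  have hVsub : V ⊆ Fintype.piFinset fun i => if i ∈ I then A i else Ico (X i) (X i + M) := by
    intro z hz
    rw [Fintype.mem_piFinset]
    intro i
    have hzi := mem_box.1 (hV hz) i
    split_ifs with hi
    · exact mem_filter.2 ⟨Finset.mem_Ico.2 hzi, hi, key z hz i hi⟩
    · exact Finset.mem_Ico.2 hzi
  have hc := Finset.card_le_card hVsub
  rw [Fintype.card_piFinset] at hc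
  have hprod : (∏ i, (if i ∈ I then h else 1)) = h ^ I.card := by
    rw [Finset.prod_ite_mem, Finset.univ_inter, Finset.prod_const]
  calc V.card * h ^ I.card ≤ (∏ i, (if i ∈ I then A i else Ico (X i) (X i + M)).card) *
        ∏ i, (if i ∈ I then h else 1) := by
        rw [hprod]
        exact Nat.mul_le_mul_right _ hc
    _ = ∏ i, ((if i ∈ I then A i else Ico (X i) (X i + M)).card * (if i ∈ I then h else 1)) :=
        Finset.prod_mul_distrib.symm
    _ ≤ ∏ i, ((if i ∈ I then 5 * (D * I.card + 1) else 1) * M) := by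
        refine Finset.prod_le_prod' fun i _ => ?_
        split_ifs with hi
        · exact hAc i hi
        · rw [Nat.card_Ico]
          omega
    _ = (∏ i, (if i ∈ I then 5 * (D * I.card + 1) else 1)) * ∏ _i : Fin n, M := Finset.prod_mul_distrib
    _ = (5 * (D * I.card + 1)) ^ I.card * M ^ n := by
        rw [Finset.prod_ite_mem, Finset.univ_inter, Finset.prod_const, Finset.prod_const, Finset.card_univ,
          Fintype.card_fin]

end Pool.Agent.H84.SM
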