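import Pool.Agent.H84.SM.Pat

/-!
MP_3b0ce5_lc (shortest graphs, perturbed points): the bad placements.
-/

set_option autoImplicit false

namespace Pool.Agent.H84.SM

open Finset

open Pool.Agent.H92.SR hiding nb

open Pool.Agent.H84.TS (nb nb_ne sum_le mix pt pt_inj sf_sq)

variable {n : ℕ}

theorem meanS {M K H : ℕ} (hM : 1 ≤ M) (X : Fin n → ℕ) (I : Finset (Fin n)) (P : (Fin n → ℕ) → Prop)
    [DecidablePred P] (hK : ∀ x ∈ box X M, ((box X M).filter fun z => P (mix I z x)).card * H ≤ K * M ^ n) :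
    ((box X M).filter P).card * H ≤ K * M ^ n := by
  have hinv : ∀ z x : Fin n → ℕ, mix I (mix I x z) (mix I z x) = x := by
    intro z x
    funext i
    unfold mix
    by_cases hi : i ∈ I <;> simp [hi]
  have h1 : ∑ x ∈ box X M, ((box X M).filter fun z => P (mix I z x)).card =
      ((box X M).filter P).card * M ^ n := by
    have e1 : ∑ x ∈ box X M, ((box X M).filter fun z => P (mix I z x)).card =
        ((box X M ×ˢ box X M).filter fun q => P (mix I q.2 q.1)).card := by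
      rw [Finset.card_filter, Finset.sum_product]
      refine Finset.sum_congr rfl fun x _ => ?_
      rw [Finset.card_filter]
    rw [e1, ← card_box X M, ← Finset.card_product]
    refine Finset.card_nbij' (fun q => (mix I q.2 q.1, mix I q.1 q.2))
      (fun q => (mix I q.2 q.1, mix I q.1 q.2)) ?_ ?_ ?_ ?_
    · intro q hq
      rw [Finset.mem_coe, mem_filter, mem_product] at hq
      obtain ⟨⟨hq1, hq2⟩, hP⟩ := hq
      rw [Finset.mem_coe, mem_product, mem_filter]
      exact ⟨⟨mix_mem I hq2 hq1, hP⟩, mix_mem I hq1 hq2⟩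
    · intro q hq
      rw [Finset.mem_coe, mem_product, mem_filter] at hq
      obtain ⟨⟨hq1, hP⟩, hq2⟩ := hq
      rw [Finset.mem_coe, mem_filter, mem_product]
      refine ⟨⟨mix_mem I hq2 hq1, mix_mem I hq1 hq2⟩, ?_⟩
      rw [hinv]
      exact hP
    · intro q _
      exact Prod.ext (hinv q.2 q.1) (hinv q.1 q.2)
    · intro q _
      exact Prod.ext (hinv q.2 q.1) (hinv q.1 q.2)
  have h2 : ((box X M).filter P).card * M ^ n * H ≤ M ^ n * (K * M ^ n) := by
    rw [← h1, Finset.sum_mul]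
    have h3 := Finset.sum_le_card_nsmul (box X M) _ _ hK
    rw [card_box, smul_eq_mul] at h3
    exact h3
  have h3 : (((box X M).filter P).card * H) * M ^ n ≤ (K * M ^ n) * M ^ n := by
    calc (((box X M).filter P).card * H) * M ^ n = ((box X M).filter P).card * M ^ n * H := by ring
      _ ≤ M ^ n * (K * M ^ n) := h2
      _ = (K * M ^ n) * M ^ n := by ring
  exact Nat.le_of_mul_le_mul_right h3 (pow_pos hM n)

theorem self_pow_le (m : ℕ) : m ^ m ≤ m.factorial * 4 ^ m := by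
  have h1 : (m + 1) ^ m ≤ (m + 1).ascFactorial m := Nat.pow_succ_le_ascFactorial (m + 1) m
  have h2 : m.factorial * (m + 1).ascFactorial m = (m + m).factorial := Nat.factorial_mul_ascFactorial m m
  have h3 : (m + m).choose m * m.factorial * m.factorial = (m + m).factorial := by
    have := Nat.choose_mul_factorial_mul_factorial (show m ≤ m + m by omega)
    rwa [Nat.add_sub_cancel] at this
  have h4 : (m + 1).ascFactorial m = (m + m).choose m * m.factorial := by
    have : m.factorial * (m + 1).ascFactorial m = m.factorial * ((m + m).choose m * m.factorial) := by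
      rw [h2, ← h3]; ring
    exact Nat.eq_of_mul_eq_mul_left (Nat.factorial_pos m) this
  have h5 : (m + m).choose m ≤ 4 ^ m := by
    refine (Nat.choose_le_two_pow _ _).trans (le_of_eq ?_)
    rw [← two_mul, pow_mul]
    norm_num
  calc m ^ m ≤ (m + 1) ^ m := Nat.pow_le_pow_left (by omega) m
    _ ≤ (m + m).choose m * m.factorial := h1.trans h4.le
    _ ≤ 4 ^ m * m.factorial := Nat.mul_le_mul_right _ h5
    _ = m.factorial * 4 ^ m := mul_comm _ _

theorem choose_pow (n m D : ℕ) : n.choose m * (5 * (D * m + 1)) ^ m ≤ (n + 1) ^ m * (20 * (D + 1)) ^ m := by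
  rcases Nat.eq_zero_or_pos m with h0 | hm
  · subst h0
    simp
  have h1 : (5 * (D * m + 1)) ^ m ≤ (5 * (D + 1)) ^ m * m ^ m := by
    rw [← mul_pow]
    refine Nat.pow_le_pow_left ?_ m
    nlinarith
  have h2 : n.choose m * m.factorial ≤ (n + 1) ^ m := by
    have h3 := Nat.descFactorial_eq_factorial_mul_choose n m
    have h4 := (Nat.descFactorial_le_pow n m).trans (Nat.pow_le_pow_left (show n ≤ n + 1 by omega) m)
    rw [h3, mul_comm] at h4
    exact h4
  calc n.choose m * (5 * (D * m + 1)) ^ m ≤ n.choose m * ((5 * (D + 1)) ^ m * (m.factorial * 4 ^ m)) :=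
        Nat.mul_le_mul_left _ (h1.trans (Nat.mul_le_mul_left _ (self_pow_le m)))
    _ = (n.choose m * m.factorial) * ((5 * (D + 1)) ^ m * 4 ^ m) := by ring
    _ ≤ (n + 1) ^ m * ((5 * (D + 1)) ^ m * 4 ^ m) := Nat.mul_le_mul_right _ h2
    _ = (n + 1) ^ m * (20 * (D + 1)) ^ m := by
        rw [← mul_pow]
        congr 2
        ring

/-- bad at the level `m` -/
def BadS (F : Set (List (Fin n × Fin n))) (Y : Fin n → Fin n → ℕ) (D b m : ℕ) (x : Fin n → ℕ) : Prop :=
  ∃ (k : ℕ) (G : List (Fin n × Fin n)), Shortest F Y x G ∧ Deg D G ∧ m * (D + 1) ≤ (obl Y G).card ∧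
    |len Y x G - k| * 2 ^ (1 + b * 4 ^ (D * m + 1)) < 1

open Classical in
theorem one_setS {D M h m L : ℕ} (h1 : 1 ≤ h) (hh : h ^ 3 ≤ M) {X : Fin n → ℕ} {Y : Fin n → Fin n → ℕ}
    (hY : ∀ i j, Y i j = Y j i) (hL : ∀ z ∈ box X M, ∀ i j, √(dd Y z i j : ℝ) ≤ L)
    (F : Set (List (Fin n × Fin n))) {b : ℕ} (hb : 8 * ((n + 1) * (D + 1) * (L + 1)) ≤ 2 ^ b) :
    ((box X M).filter fun x => BadS F Y D b m x).card * h ^ m ≤
      ((n + 1) ^ (D + 1) * (20 * (D + 1))) ^ m * M ^ n := by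
  have hM1 : 1 ≤ M := (Nat.one_le_pow 3 h h1).trans hh
  set Q : (I : Finset (Fin n)) → ({o // o ∈ I} → Fin D → Option (Fin n)) → (Fin n → ℕ) → Prop := fun I f x =>
    ∃ (k : ℕ) (G : List (Fin n × Fin n)), Shortest F Y x G ∧ Deg D G ∧ (∀ o ∈ I, ∃ t ∈ nb o G, Y o t ≠ 0) ∧
      (∀ o : {o // o ∈ I}, pt D (nb o.1 G) = f o) ∧
      (∀ o ∈ I, ∀ t ∈ nb o G, t ∉ I) ∧ |len Y x G - k| * 2 ^ (1 + b * 4 ^ (D * m + 1)) < 1 with hQ
  have hW : ∀ I ∈ (univ : Finset (Fin n)).powersetCard m, ∀ f, ((box X M).filter (Q I f)).card * h ^ m ≤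
      (5 * (D * m + 1)) ^ m * M ^ n := by
    intro I hI f
    have hI2 := (Finset.mem_powersetCard.1 hI).2
    refine meanS hM1 X I (Q I f) fun x hx => ?_
    rcases ((box X M).filter fun z => Q I f (mix I z x)).eq_empty_or_nonempty with he | ⟨z0, hz0⟩
    · rw [he]; simp
    obtain ⟨k0, G0, hS0, hG0, ho0, hf0, hi0, hl0⟩ := (mem_filter.1 hz0).2
    have h2 := patS (D := D) h1 hh hY hL hx I F (fun o => nb o G0) hb
      ((box X M).filter fun z => Q I f (mix I z x)) (Finset.filter_subset _ _) ho0 (fun z hz => by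
        obtain ⟨k, G, hS, hG, ho, hf, hi, hl⟩ := (mem_filter.1 hz).2
        refine ⟨k, G, hS, hG, fun o ho => ?_, hi, by rw [hI2]; exact hl⟩
        exact pt_inj (hG.2 o) (hG0.2 o) ((hf ⟨o, ho⟩).trans (hf0 ⟨o, ho⟩).symm))
    rw [hI2] at h2
    exact h2
  have hsub : ((box X M).filter fun x => BadS F Y D b m x) ⊆ ((univ : Finset (Fin n)).powersetCard m).biUnion fun I =>
      (univ : Finset ({o // o ∈ I} → Fin D → Option (Fin n))).biUnion fun f => (box X M).filter (Q I f) := by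
    intro x hx
    obtain ⟨hx1, k, G, hS, hG, hO, hl⟩ := mem_filter.1 hx
    obtain ⟨I, hI1, hI2, hI3⟩ := indep hG m (obl Y G) hO
    rw [mem_biUnion]
    refine ⟨I, Finset.mem_powersetCard.2 ⟨Finset.subset_univ _, hI2⟩, ?_⟩
    rw [mem_biUnion]
    exact ⟨fun o => pt D (nb o.1 G), mem_univ _, mem_filter.2 ⟨hx1, k, G, hS, hG,
      fun o ho => (mem_filter.1 (hI1 ho)).2, fun o => rfl, hI3, hl⟩⟩
  have c1 := (Finset.card_le_card hsub).trans Finset.card_biUnion_le
  calc ((box X M).filter fun x => BadS F Y D b m x).card * h ^ m ≤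
        (∑ I ∈ (univ : Finset (Fin n)).powersetCard m, ∑ f : {o // o ∈ I} → Fin D → Option (Fin n),
          ((box X M).filter (Q I f)).card) * h ^ m := by
        refine Nat.mul_le_mul_right _ (c1.trans (Finset.sum_le_sum fun I _ => Finset.card_biUnion_le))
    _ = ∑ I ∈ (univ : Finset (Fin n)).powersetCard m, ∑ f : {o // o ∈ I} → Fin D → Option (Fin n),
          ((box X M).filter (Q I f)).card * h ^ m := by
        rw [Finset.sum_mul]
        exact Finset.sum_congr rfl fun I _ => Finset.sum_mul _ _ _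
    _ ≤ ∑ I ∈ (univ : Finset (Fin n)).powersetCard m, ∑ _f : {o // o ∈ I} → Fin D → Option (Fin n),
          (5 * (D * m + 1)) ^ m * M ^ n :=
        Finset.sum_le_sum fun I hI => Finset.sum_le_sum fun f _ => hW I hI f
    _ = ∑ I ∈ (univ : Finset (Fin n)).powersetCard m, ((n + 1) ^ D) ^ m * ((5 * (D * m + 1)) ^ m * M ^ n) := by
        refine Finset.sum_congr rfl fun I hI => ?_
        rw [Finset.sum_const, smul_eq_mul, Finset.card_univ]
        congr 1
        rw [Fintype.card_fun, Fintype.card_fun, Fintype.card_option, Fintype.card_fin, Fintype.card_fin,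
          Fintype.card_coe, (Finset.mem_powersetCard.1 hI).2]
    _ = n.choose m * (((n + 1) ^ D) ^ m * ((5 * (D * m + 1)) ^ m * M ^ n)) := by
        rw [Finset.sum_const, smul_eq_mul, Finset.card_powersetCard, Finset.card_univ, Fintype.card_fin]
    _ = (n.choose m * (5 * (D * m + 1)) ^ m) * (((n + 1) ^ D) ^ m * M ^ n) := by ring
    _ ≤ ((n + 1) ^ m * (20 * (D + 1)) ^ m) * (((n + 1) ^ D) ^ m * M ^ n) := Nat.mul_le_mul_right _ (choose_pow n m D)
    _ = ((n + 1) ^ (D + 1) * (20 * (D + 1))) ^ m * M ^ n := by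
        rw [mul_pow ((n + 1) ^ (D + 1)), pow_succ (n + 1) D, mul_pow ((n + 1) ^ D)]
        generalize ((n + 1) ^ D) ^ m = a, (20 * (D + 1)) ^ m = c, M ^ n = d, (n + 1) ^ m = e
        ring

theorem levelS {D M h m L Λ : ℕ} (hΛ : 1 ≤ Λ) (hh0 : h = 2 * Λ * (20 * (D + 1)) * (n + 1) ^ (D + 1)) (hh : h ^ 3 ≤ M)
    {X : Fin n → ℕ} {Y : Fin n → Fin n → ℕ}
    (hY : ∀ i j, Y i j = Y j i) (hL : ∀ z ∈ box X M, ∀ i j, √(dd Y z i j : ℝ) ≤ L)
    (F : Set (List (Fin n × Fin n))) {b : ℕ} (hb : 8 * ((n + 1) * (D + 1) * (L + 1)) ≤ 2 ^ b)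
    (S : Finset (Fin n → ℕ)) (hS : S ⊆ box X M) (hSB : ∀ x ∈ S, BadS F Y D b m x) :
    S.card * (2 * Λ) ^ m ≤ M ^ n := by
  classical
  have h1 : 1 ≤ h := by
    rw [hh0]
    exact Nat.one_le_iff_ne_zero.2 (by positivity)
  have h2 := one_setS (m := m) h1 hh hY hL F hb
  have h3 : S.card ≤ ((box X M).filter fun x => BadS F Y D b m x).card :=
    Finset.card_le_card fun x hx => mem_filter.2 ⟨hS hx, hSB x hx⟩
  set K := (n + 1) ^ (D + 1) * (20 * (D + 1)) with hK
  have hK1 : 1 ≤ K := Nat.one_le_iff_ne_zero.2 (by positivity)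
  have hhK : h = 2 * Λ * K := by
    rw [hh0, hK]
    ring
  have h4 : (S.card * (2 * Λ) ^ m) * K ^ m ≤ M ^ n * K ^ m := by
    calc (S.card * (2 * Λ) ^ m) * K ^ m = S.card * h ^ m := by rw [hhK, mul_pow (2 * Λ) K]; ring
      _ ≤ ((box X M).filter fun x => BadS F Y D b m x).card * h ^ m := Nat.mul_le_mul_right _ h3
      _ ≤ K ^ m * M ^ n := h2
      _ = M ^ n * K ^ m := mul_comm _ _
  exact Nat.le_of_mul_le_mul_right h4 (pow_pos hK1 m)

end Pool.Agent.H84.SM
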